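import Pool.Agent.MP_f65396_co.h15n.Main

/-! Graphs without a nearly complete subgraph, with an explicit threshold. -/

set_option autoImplicit false

namespace Pool.Agent.MP_f65396_co.h28x

open Finset Pool.Agent.MP_f65396_co.h15n

theorem numX (k : ℕ) (hk : 1 ≤ k) (n : ℕ) (hn : ((10000 * k) ^ 60) ^ 4 ≤ n) :
    ∃ h, Par n h k (10000 * k) := by
  refine ⟨n.sqrt.sqrt, ?_⟩
  obtain ⟨K, hK⟩ : ∃ K, K = 10000 * k := ⟨_, rfl⟩
  rw [← hK] at hn ⊢
  have hK1 : 10000 ≤ K := by omega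
  have h1 : K ^ 60 ≤ n.sqrt.sqrt := by
    rw [Nat.le_sqrt', Nat.le_sqrt', ← pow_mul]
    exact hn
  have h2 : n.sqrt.sqrt ^ 4 ≤ n := by
    have := Nat.pow_le_pow_left (Nat.sqrt_le' n.sqrt) 2
    rw [← pow_mul] at this
    exact this.trans (Nat.sqrt_le' n)
  have h3 : n ≤ (n.sqrt.sqrt + 1) ^ 4 := by
    have := Nat.pow_le_pow_left (Nat.succ_le_of_lt (Nat.lt_succ_sqrt' n.sqrt)) 2
    rw [← pow_mul] at this
    exact (Nat.lt_succ_sqrt' n).le.trans this
  generalize n.sqrt.sqrt = h at h1 h2 h3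
  have h0 : 1 ≤ h := le_trans (Nat.one_le_pow _ _ (by omega)) h1
  have h4 : n ≤ 16 * h ^ 4 := by
    refine h3.trans ((Nat.pow_le_pow_left (by omega : h + 1 ≤ 2 * h) 4).trans_eq ?_)
    ring
  refine ⟨hk, hK, h1, h2, h4, ?_⟩
  have hKr : (10000 : ℝ) ≤ K := by exact_mod_cast hK1
  have hK0 : (0 : ℝ) < K := by linarith
  have hh0 : (0 : ℝ) < h := by exact_mod_cast h0
  refine lt_of_lt_of_le ?_ (Real.pow_div_factorial_le_exp _ (by positivity) 13)
  rw [div_pow, div_div, lt_div_iff₀ (by positivity)]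
  have h5 : (n : ℝ) ^ 3 ≤ (16 * (h : ℝ) ^ 4) ^ 3 :=
    pow_le_pow_left₀ (by positivity) (by exact_mod_cast h4) 3
  have h6 : (K : ℝ) ^ 60 ≤ h := by exact_mod_cast h1
  have h7 : (10000 : ℝ) ^ 20 ≤ (K : ℝ) ^ 20 := pow_le_pow_left₀ (by norm_num) hKr 20
  have h8 : (8 * 16 ^ 3 * 160 ^ 13 * (Nat.factorial 13 : ℕ) : ℝ) < (K : ℝ) ^ 20 :=
    lt_of_lt_of_le (by norm_num [Nat.factorial]) h7
  calc (8 * (n : ℝ) ^ 3 * (K : ℝ) ^ 14) * ((160 * (K : ℝ) ^ 2) ^ 13 * (Nat.factorial 13 : ℕ))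
      ≤ (8 * (16 * (h : ℝ) ^ 4) ^ 3 * (K : ℝ) ^ 14) *
          ((160 * (K : ℝ) ^ 2) ^ 13 * (Nat.factorial 13 : ℕ)) := by gcongr
    _ = (8 * 16 ^ 3 * 160 ^ 13 * (Nat.factorial 13 : ℕ) : ℝ) * ((K : ℝ) ^ 40 * (h : ℝ) ^ 12) := by
        ring
    _ < (K : ℝ) ^ 20 * ((K : ℝ) ^ 40 * (h : ℝ) ^ 12) := by gcongr
    _ = (K : ℝ) ^ 60 * (h : ℝ) ^ 12 := by ring
    _ ≤ (h : ℝ) * (h : ℝ) ^ 12 := by gcongr
    _ = (h : ℝ) ^ 13 := by ring

theorem wireX (ord : OrdS) (cd : CardS) (fin : FinS) (ori : OriS) (many : ManyS)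
    (few : FewS) (k : ℕ) (hk : 1 ≤ k) (V : Type) [Fintype V] [DecidableEq V]
    (G : SimpleGraph V) [DecidableRel G.Adj] (n h : ℕ) (P : Par n h k (10000 * k))
    (hE : G.edgeSet.ncard = n * (n + 1) / 2)
    (hS : ∀ S : Finset V, k * ein G S ≤ (k - 1) * n * S.card) : Dec0 G n := by
  obtain ⟨K, hK⟩ : ∃ K, K = 10000 * k := ⟨_, rfl⟩
  rw [← hK] at P
  have k1 : 10000 ≤ K := by omega
  have n1 : 10000 * K ≤ n := by
    have a1 : K ^ 2 ≤ K ^ 60 := Nat.pow_le_pow_right (by omega) (by omega)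
    have a2 : h ≤ h ^ 4 := Nat.le_self_pow (by omega) h
    have a3 := P.hh
    have a4 := P.h1
    nlinarith
  have g2 := h32.gauss n
  obtain ⟨v0, -⟩ : ∃ v0 : V, True := by
    have : G.edgeSet.Nonempty := by
      rw [← Set.ncard_pos (Set.toFinite _), hE]
      have := Nat.mul_pos (show 0 < n by omega) (Nat.succ_pos n)
      rw [Nat.succ_eq_add_one] at this
      omega
    obtain ⟨e, -⟩ := this
    exact ⟨e.out.1, trivial⟩
  obtain ⟨O, hO⟩ : ∃ O : Finset V, ∀ v, v ∈ O ↔ K * n ≤ G.degree v :=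
    ⟨univ.filter (fun v => K * n ≤ G.degree v), by simp⟩
  have qn : O.card * K ≤ n + 1 := by
    have a1 : O.card * (K * n) ≤ ∑ v ∈ O, G.degree v := by
      rw [← smul_eq_mul, ← sum_const]
      exact sum_le_sum fun v hv => (hO v).1 hv
    have a2 : ∑ v ∈ O, G.degree v ≤ ∑ v, G.degree v :=
      sum_le_sum_of_subset (subset_univ _)
    rw [G.sum_degrees_eq_twice_card_edges, ← Set.ncard_coe_finset, SimpleGraph.coe_edgeFinset,
      hE, g2] at a2
    refine Nat.le_of_mul_le_mul_left (c := n) ?_ (by omega)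
    calc n * (O.card * K) = O.card * (K * n) := by ring
      _ ≤ _ := a1.trans a2
  obtain ⟨o, Dm, L, b1, b2, b3, b4, b5, -⟩ := ord V G O v0
  let G0 : SimpleGraph V :=
    { Adj := fun u v => G.Adj u v ∧ u ∉ O ∧ v ∉ O
      symm := ⟨fun u v e => ⟨e.1.symm, e.2.2, e.2.1⟩⟩
      loopless := ⟨fun u e => e.1.ne rfl⟩ }
  have tO : ∀ p ∈ Dm, p.1 ∈ O := fun p hp => by
    obtain ⟨i, hi, e, -⟩ := b2.tl p hp
    exact (b3 _).2 ⟨i, hi, e.symm⟩
  have orn : ∀ D0, Orn G0 D0 → Orn G (D0 ∪ Dm) := by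
    intro D0 T
    refine ⟨fun p hp => ?_, fun u v e => ?_, fun u v h1 h2 => ?_⟩
    · rcases mem_union.1 hp with c | c
      · exact (T.adj p c).1
      · exact b1.adj p (mem_union_left _ c)
    · by_cases c : u ∉ O ∧ v ∉ O
      · exact (T.cov u v ⟨e, c⟩).imp (mem_union_left _) (mem_union_left _)
      · refine (b1.cov u v e).imp (fun r => mem_union_right _ ?_) fun r => mem_union_right _ ?_
        · exact (mem_union.1 r).resolve_right fun r' => c (b4 _ r')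
        · exact (mem_union.1 r).resolve_right fun r' => c (b4 _ r').symm
    · rcases mem_union.1 h1 with c | c <;> rcases mem_union.1 h2 with d | d
      · exact T.asy u v c d
      · exact (T.adj _ c).2.2 (tO _ d)
      · exact (T.adj _ d).2.2 (tO _ c)
      · exact b1.asy u v (mem_union_left _ c) (mem_union_left _ d)
  have hg : ∀ D0, Orn G0 D0 → HG n K O.card o D0 Dm := by
    intro D0 T
    refine ⟨b2, fun p hp i hi => ?_, fun i hi => ?_, qn, ?_, k1, n1⟩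
    · have c := (b3 (o i)).2 ⟨i, hi, rfl⟩
      exact ⟨fun e => (T.adj p hp).2.1 (e ▸ c), fun e => (T.adj p hp).2.2 (e ▸ c)⟩
    · have c := (b3 (o i)).2 ⟨i, hi, rfl⟩
      exact ((hO _).1 c).trans (b5 _ c).2
    · rw [← hE, ← (cd V G _ (orn D0 T)).1, card_union_of_disjoint]
      exact disjoint_left.2 fun p h1 h2 => (T.adj p h1).2.1 (tO p h2)
  have le : G0 ≤ G := fun u v e => e.1
  have dg : ∀ v, G0.degree v ≤ K * n := by
    intro v
    by_cases c : v ∈ O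
    · rw [(G0.degree_eq_zero_iff_notMem_support v).2 fun ⟨w, e⟩ => e.2.1 c]
      exact Nat.zero_le _
    · have a1 := SimpleGraph.degree_le_of_le (v := v) le
      have a2 := not_le.1 fun e => c ((hO v).2 e)
      omega
  obtain ⟨D0, φ, arm, T, A⟩ : ∃ D0 φ arm, Orn G0 D0 ∧ Lab n (Icc 1 n) (D0 ∪ Dm) φ arm := by
    by_cases c : (univ.filter (fun v => n < K * G0.degree v)).card < K ^ 21 * h
    · exact few V G0 n h k K O.card o Dm P hg dg c
    · obtain ⟨D, T, M⟩ := ori V G0 n h k K (univ.filter (fun v => n < K * G0.degree v)) P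
        (fun S => le_trans (Nat.mul_le_mul_left _ (card_le_card
          (monotone_filter_right _ fun p _ e => e.1))) (hS S)) dg (by simp) (not_lt.1 c)
        (hE ▸ Set.ncard_le_ncard (SimpleGraph.edgeSet_mono le) (Set.toFinite _))
      obtain ⟨φ, arm, A⟩ := many V n h k K O.card o _ D Dm P (hg D T) M
      exact ⟨D, φ, arm, T, A⟩
  exact fin V G n _ φ arm (orn D0 T) A

theorem main0X (k : ℕ) (hk : 1 ≤ k) (V : Type) [Fintype V] [DecidableEq V]
    (G : SimpleGraph V) [DecidableRel G.Adj] (n : ℕ) (hn : ((10000 * k) ^ 60) ^ 4 ≤ n)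
    (hE : G.edgeSet.ncard = n * (n + 1) / 2)
    (hS : ∀ S : Finset V, k * ein G S ≤ (k - 1) * n * S.card) : Dec0 G n := by
  obtain ⟨h, P⟩ := numX k hk n hn
  have t := top splitS (own swap)
  exact wireX ord cardS finS (ori hak cardS)
    (many (planM t) (label chern) (ctrS (tab anti) wrap load) (star (shift chern))
      (irr (hand greedy)) (rest (slot swap anti) count) (block (viz kempe) (eqz kempe)) glue free)
    (few ord (fa (med pick) (own swap) (two swap) (planA t))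
      (fb pick (med pick) (own swap) (two swap) (planB t))) k hk V G n h P hE hS

theorem thr0 (a n : ℕ) (ha : a = 10) (hn : a ^ 11760 ≤ n) :
    ((10000 * a ^ 45) ^ 60) ^ 4 ≤ n ∧ a ^ 46 ≤ n := by
  have e0 : 10000 * a ^ 45 = a ^ 49 := by
    rw [show 49 = 4 + 45 from rfl, pow_add]
    congr 1
    rw [ha]
    norm_num
  have e : ((10000 * a ^ 45) ^ 60) ^ 4 = a ^ 11760 := by
    rw [e0, ← pow_mul, ← pow_mul]
  exact ⟨e.trans_le hn, (Nat.pow_le_pow_right (by omega) (by omega)).trans hn⟩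

/-- The threshold for `k = 10 ^ 45`. -/
theorem thr (n : ℕ) (hn : 10 ^ 11760 ≤ n) : ((10000 * 10 ^ 45) ^ 60) ^ 4 ≤ n ∧ 10 ^ 46 ≤ n :=
  thr0 10 n rfl hn

end Pool.Agent.MP_f65396_co.h28x
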