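import Pool.Agent.MP_f65396_co.h81n.Main
import Pool.Agent.MP_f65396_co.h28x.Expl

/-! The three cases cover all graphs, with an explicit threshold. -/

set_option autoImplicit false

namespace Pool.Agent.MP_f65396_co.h28x

open Finset
open Pool.Agent.MP_f65396_co.h15n (Dec0 ein)

theorem mainY (V : Type) [Fintype V] (G : SimpleGraph V) (n : ℕ)
    (h1 : ((10000 * 10 ^ 45) ^ 60) ^ 4 ≤ n) (h2 : 10 ^ 46 ≤ n)
    (hE : G.edgeSet.ncard = n * (n + 1) / 2) : Dec0 G n := by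
  classical
  by_cases a : ∀ S : Finset V, 10 ^ 45 * ein G S ≤ (10 ^ 45 - 1) * n * S.card
  · exact main0X (10 ^ 45) (by norm_num) V G n h1 hE a
  by_cases b : 10 ^ 10 * (G.support.ncard - n) ≤ n
  · obtain ⟨H, a1, a2, a3, a4, a5, -⟩ := h15l.main V G n hE b
    exact ⟨H, a1, a2, a3, a4, a5⟩
  obtain ⟨S, hS⟩ := not_forall.1 a
  exact h81n.near V G n S hE h2 (not_le.1 hS) (not_le.1 b)

theorem mainX (V : Type) [Fintype V] (G : SimpleGraph V) (n : ℕ) (hn : 10 ^ 11760 ≤ n)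
    (hE : G.edgeSet.ncard = n * (n + 1) / 2) : Dec0 G n :=
  mainY V G n (thr n hn).1 (thr n hn).2 hE

end Pool.Agent.MP_f65396_co.h28x
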